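import Pool.Agent.Lib.MP_6bc78b_nt.GP.Iface
import Pool.Agent.Lib.MP_6bc78b_nt.MS.P1.POLY

/-! Project GP, module CON: auxiliary bounds. -/

set_option autoImplicit false

open Complex Set Filter Topology MeasureTheory intervalIntegral

namespace Pool.Agent.Lib.MP_6bc78b_nt.GP.H47

open Pool.Agent.Lib.MP_6bc78b_nt Pool.Agent.Lib.MP_6bc78b_nt.MS Pool.Agent.Lib.MP_6bc78b_nt.MS.P1

/-! ### The window -/

lemma norm_GH (H t : ℝ) (s : ℂ) :
    ‖GH H t s‖ = Real.exp (((s.re - 1 / 2) ^ 2 - (s.im - t) ^ 2) / (2 * H ^ 2)) := by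
  unfold GH
  rw [Complex.norm_exp]
  congr 1
  have e : (2 * (H : ℂ) ^ 2) = ((2 * H ^ 2 : ℝ) : ℂ) := by push_cast; ring
  rw [e, Complex.div_ofReal_re, pow_two, Complex.mul_re]
  simp
  ring

lemma GH_diff (H t : ℝ) : Differentiable ℂ (GH H t) := by
  unfold GH
  fun_prop

lemma GH_small : ∀ᶠ T : ℝ in atTop, ∀ (t H : ℝ) (s : ℂ), 1 ≤ H → H ≤ T / Real.log T →
    -(1 / 2) ≤ s.re → s.re ≤ 3 / 2 → T / 4 ≤ |s.im - t| →
    ‖GH H t s‖ ≤ 1 / T ^ 10 / (1 + |s.im - t|) ^ 4 := by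
  filter_upwards [Real.tendsto_log_atTop.eventually_ge_atTop 500, eventually_ge_atTop 4] with T hL
    hT4 t H s hH1 hH2 h1 h2 h3
  have hT0 : 0 < T := by linarith
  obtain ⟨L, hLd⟩ : ∃ L : ℝ, L = Real.log T := ⟨_, rfl⟩
  obtain ⟨x, hx⟩ : ∃ x : ℝ, x = |s.im - t| := ⟨_, rfl⟩
  have hx2 : (s.im - t) ^ 2 = x ^ 2 := by rw [hx, sq_abs]
  rw [norm_GH, hx2]
  rw [← hLd] at hL hH2
  rw [← hx] at h3 ⊢
  have hL0 : 0 < L := by linarith
  have hx0 : 0 < x := by linarith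
  have hH0 : 0 < H := by linarith
  obtain ⟨ξ, hξ⟩ : ∃ ξ : ℝ, ξ = x / T := ⟨_, rfl⟩
  have hxξ : x = ξ * T := by rw [hξ]; field_simp
  have hξ4 : 1 / 4 ≤ ξ := by rw [hξ, le_div_iff₀ hT0]; linarith
  have hlog : Real.log (1 + x) ≤ L + 2 * ξ := by
    have h4 : Real.log (1 + x) = Real.log T + Real.log ((1 + x) / T) := by
      rw [← Real.log_mul (by positivity) (by positivity)]; congr 1; field_simp
    have h5 : Real.log ((1 + x) / T) ≤ (1 + x) / T - 1 :=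
      Real.log_le_sub_one_of_pos (by positivity)
    have h6 : (1 + x) / T ≤ 2 * ξ := by
      rw [div_le_iff₀ hT0]; nlinarith
    rw [h4, ← hLd]; linarith
  have hexp : ((s.re - 1 / 2) ^ 2 - x ^ 2) / (2 * H ^ 2) ≤ 1 / 2 - ξ ^ 2 * L ^ 2 / 2 := by
    have h7 : (s.re - 1 / 2) ^ 2 / (2 * H ^ 2) ≤ 1 / 2 := by
      rw [div_le_iff₀ (by positivity)]
      nlinarith
    have h8 : ξ ^ 2 * L ^ 2 / 2 ≤ x ^ 2 / (2 * H ^ 2) := by
      rw [le_div_iff₀ (by positivity)]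
      have h9 : H * L ≤ T := by
        rw [le_div_iff₀ hL0] at hH2
        exact hH2
      have h10 : (H * L) ^ 2 ≤ T ^ 2 := by
        have : 0 ≤ H * L := by positivity
        nlinarith
      rw [hxξ]
      have h11 : 0 ≤ ξ ^ 2 := sq_nonneg _
      nlinarith
    rw [sub_div]
    linarith
  have hmain : ((s.re - 1 / 2) ^ 2 - x ^ 2) / (2 * H ^ 2) + 4 * Real.log (1 + x) + 10 * L ≤ 0 := by
    have a1 : ξ ≤ 4 * ξ ^ 2 := by nlinarith
    have a2 : 1 ≤ 16 * ξ ^ 2 := by nlinarith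
    have a3 : 1 / 2 + 14 * L ≤ 16 * ξ ^ 2 * (1 / 2 + 14 * L) := by
      have : 0 ≤ 1 / 2 + 14 * L := by linarith
      nlinarith
    have a4 : ξ ^ 2 * (40 + 224 * L - L ^ 2 / 2) ≤ 0 := by
      have : 40 + 224 * L - L ^ 2 / 2 ≤ 0 := by nlinarith
      exact mul_nonpos_of_nonneg_of_nonpos (sq_nonneg _) this
    nlinarith
  rw [div_div, le_div_iff₀ (by positivity)]
  have e2 : T ^ 10 = Real.exp (10 * L) := by
    rw [mul_comm, Real.exp_mul, hLd, Real.exp_log hT0]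
    norm_cast
  have e3 : (1 + x) ^ 4 = Real.exp (4 * Real.log (1 + x)) := by
    rw [mul_comm, Real.exp_mul, Real.exp_log (by linarith)]
    norm_cast
  rw [e2, e3, ← Real.exp_add, ← Real.exp_add, Real.exp_le_one_iff]
  linarith

/-! ### `ω` -/

lemma om0_diff (δ : ℝ) {s : ℂ} (hs : s.im ≠ 0 ∨ 0 < s.re) : DifferentiableAt ℂ (om0 δ) s := by
  have h1 : DifferentiableAt ℂ Complex.Gamma s := by
    apply Complex.differentiableAt_Gamma
    intro m hm
    rcases hs with h | h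
    · apply h; rw [hm]; simp
    · rw [hm] at h
      simp only [neg_re, natCast_re, Left.neg_pos_iff] at h
      have : (0 : ℝ) ≤ m := by positivity
      linarith
  have h2 : DifferentiableAt ℂ (fun s : ℂ => (2 * Real.pi : ℂ) ^ (-s)) s :=
    DifferentiableAt.const_cpow (by fun_prop) (Or.inl (by simp [Real.pi_ne_zero]))
  have h3 : DifferentiableAt ℂ
      (fun s : ℂ => Complex.exp (-(Real.pi / 2 * I * s) + δ * I * s)) s := by fun_prop
  exact (h1.mul h2).mul h3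

lemma om0_mid : ∃ C : ℝ, 0 < C ∧ ∀ (δ : ℝ) (s : ℂ), 0 ≤ δ → δ ≤ 1 → s.re = 3 / 2 → |s.im| ≤ 1 →
    ‖om0 δ s‖ ≤ C := by
  have hc : ContinuousOn (fun y : ℝ => Complex.Gamma ((3 / 2 : ℝ) + y * I)) (Icc (-1) 1) := by
    apply Continuous.continuousOn
    rw [continuous_iff_continuousAt]
    intro y
    have h1 : DifferentiableAt ℂ Complex.Gamma ((3 / 2 : ℝ) + y * I) := by
      apply Complex.differentiableAt_Gamma
      intro m hm
      have := congrArg Complex.re hm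
      simp only [add_re, ofReal_re, mul_re, I_re, mul_zero, ofReal_im, I_im, mul_one, sub_self,
        add_zero, neg_re, natCast_re] at this
      have h2 : (0 : ℝ) ≤ m := by positivity
      linarith
    have h3 : ContinuousAt (fun y : ℝ => (((3 / 2 : ℝ) : ℂ) + y * I)) y := by fun_prop
    exact ContinuousAt.comp (f := fun y : ℝ => (((3 / 2 : ℝ) : ℂ) + y * I)) (g := Complex.Gamma)
      h1.continuousAt h3
  obtain ⟨C, hC⟩ := isCompact_Icc.exists_bound_of_continuousOn hc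
  have hC0 : 0 ≤ C := (norm_nonneg _).trans (hC 0 ⟨by norm_num, by norm_num⟩)
  refine ⟨(C + 1) * Real.exp 3, by positivity, fun δ s h0 h1 hre him => ?_⟩
  have e : s = ((3 / 2 : ℝ) : ℂ) + s.im * I := by
    apply Complex.ext <;> simp [hre]
  have hg : ‖Complex.Gamma s‖ ≤ C + 1 := by
    have := hC s.im (abs_le.1 him)
    rw [← e] at this
    linarith
  have hp : ‖(2 * Real.pi : ℂ) ^ (-s)‖ ≤ 1 := by
    have e2 : (2 * Real.pi : ℂ) = ((2 * Real.pi : ℝ) : ℂ) := by push_cast; rfl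
    rw [e2, Complex.norm_cpow_eq_rpow_re_of_pos (by positivity)]
    apply Real.rpow_le_one_of_one_le_of_nonpos
    · linarith [Real.pi_gt_three]
    · rw [neg_re, hre]; norm_num
  have hx : ‖Complex.exp (-(Real.pi / 2 * I * s) + δ * I * s)‖ ≤ Real.exp 3 := by
    rw [Complex.norm_exp, Real.exp_le_exp]
    have e3 : (-(Real.pi / 2 * I * s) + δ * I * s).re = (Real.pi / 2 - δ) * s.im := by
      have : (-(Real.pi / 2 * I * s) + δ * I * s) = ((-(Real.pi / 2) + δ : ℝ) : ℂ) * (I * s) := by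
        push_cast; ring
      rw [this, Complex.re_ofReal_mul]
      simp
      ring
    rw [e3]
    have h4 := Real.pi_gt_three
    have h5 := Real.pi_lt_four
    have h6 := abs_le.1 him
    nlinarith
  unfold om0
  rw [norm_mul, norm_mul]
  calc ‖Complex.Gamma s‖ * ‖(2 * Real.pi : ℂ) ^ (-s)‖ *
        ‖Complex.exp (-(Real.pi / 2 * I * s) + δ * I * s)‖
      ≤ (C + 1) * 1 * Real.exp 3 := by gcongr
    _ = (C + 1) * Real.exp 3 := by ring

/-- `ω` times the window, away from `t`. -/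
lemma om_GH_small (hG : GAMCStatement) : ∃ K : ℝ, 0 < K ∧ ∀ᶠ T : ℝ in atTop, ∀ (t δ H : ℝ) (s : ℂ),
    T ≤ t → t ≤ 2 * T → 0 ≤ δ → δ ≤ 1 → 1 ≤ H → H ≤ T / Real.log T →
    -(1 / 2) ≤ s.re → s.re ≤ 3 / 2 → (1 ≤ |s.im| ∨ s.re = 3 / 2) → T / 4 ≤ |s.im - t| →
    ‖om0 δ s * GH H t s‖ ≤ K / T ^ 10 * (1 + (s.im - t) ^ 2)⁻¹ := by
  obtain ⟨C1, hC1, h1⟩ := hG.2
  obtain ⟨C2, hC2, h2⟩ := om0_mid
  refine ⟨81 * C1 + C2, by positivity, ?_⟩
  filter_upwards [GH_small, eventually_ge_atTop 4] with T hGH hT4 t δ H s ht1 ht2 hδ1 hδ2 hH1 hH2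
    hs1 hs2 hs3 hs4
  have hT0 : 0 < T := by linarith
  have h3 := hGH t H s hH1 hH2 hs1 hs2 hs4
  obtain ⟨x, hx⟩ : ∃ x : ℝ, x = |s.im - t| := ⟨_, rfl⟩
  have hx2 : (s.im - t) ^ 2 = x ^ 2 := by rw [hx, sq_abs]
  have hxim : |s.im| ≤ x + 2 * T := by
    have h4 : |s.im| ≤ |s.im - t| + |t| := by
      have := abs_add_le (s.im - t) t
      rwa [sub_add_cancel] at this
    rw [abs_of_pos (by linarith : 0 < t), ← hx] at h4
    linarith
  rw [hx2]
  rw [← hx] at h3 hs4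
  have hx0 : 0 < x := by linarith
  have hom : ‖om0 δ s‖ ≤ (81 * C1 + C2) * (1 + x) ^ 2 := by
    rcases le_or_gt 1 |s.im| with h5 | h5
    · have h6 := h1 δ s hδ1 hδ2 hs1 hs2 h5
      have h7 : (1 + |s.im|) ^ 2 ≤ 81 * (1 + x) ^ 2 := by
        have h8 : 1 + |s.im| ≤ 9 * (1 + x) := by linarith
        have h9 : 0 ≤ 1 + |s.im| := by positivity
        nlinarith
      have h10 : 0 ≤ C2 * (1 + x) ^ 2 := by positivity
      nlinarith
    · have h6 : s.re = 3 / 2 := by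
        rcases hs3 with h | h
        · linarith
        · exact h
      have h7 := h2 δ s hδ1 hδ2 h6 h5.le
      have h8 : 1 ≤ (1 + x) ^ 2 := by nlinarith
      have h9 : 0 ≤ 81 * C1 * (1 + x) ^ 2 := by positivity
      nlinarith
  rw [norm_mul]
  have h11 : (1 + x) ^ 2 * (1 / T ^ 10 / (1 + x) ^ 4) ≤ 1 / T ^ 10 * (1 + x ^ 2)⁻¹ := by
    have e : (1 + x) ^ 2 * (1 / T ^ 10 / (1 + x) ^ 4) = 1 / T ^ 10 * ((1 + x) ^ 2)⁻¹ := by
      field_simp
    rw [e]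
    gcongr
    nlinarith
  calc ‖om0 δ s‖ * ‖GH H t s‖ ≤ ((81 * C1 + C2) * (1 + x) ^ 2) * (1 / T ^ 10 / (1 + x) ^ 4) := by
        gcongr
    _ = (81 * C1 + C2) * ((1 + x) ^ 2 * (1 / T ^ 10 / (1 + x) ^ 4)) := by ring
    _ ≤ (81 * C1 + C2) * (1 / T ^ 10 * (1 + x ^ 2)⁻¹) := by gcongr
    _ = (81 * C1 + C2) / T ^ 10 * (1 + x ^ 2)⁻¹ := by ring

/-! ### Growth of `ζ'` and `ζ''` -/

lemma deriv2_bound : ∃ C : ℝ, 0 < C ∧ ∀ s : ℂ, -(1 / 2) ≤ s.re → s.re ≤ 3 / 2 → 2 ≤ |s.im| →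
    ‖deriv (deriv riemannZeta) s‖ ≤ C * (2 + |s.im|) ^ (17 / 8 : ℝ) := by
  obtain ⟨C, hC, h⟩ := POLY.zeta_bound
  refine ⟨128 * C, by positivity, ?_⟩
  intro s h1 h2 h3
  have hball : ∀ z ∈ Metric.closedBall s (1 / 8), |z.re - s.re| ≤ 1 / 8 ∧ |z.im - s.im| ≤ 1 / 8 := by
    intro z hz
    rw [Metric.mem_closedBall, dist_eq_norm] at hz
    refine ⟨?_, ?_⟩
    · have := Complex.abs_re_le_norm (z - s)
      rw [sub_re] at this
      linarith
    · have := Complex.abs_im_le_norm (z - s)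
      rw [sub_im] at this
      linarith
  have him : ∀ z ∈ Metric.closedBall s (1 / 8), 1 ≤ |z.im| ∧ |z.im| ≤ 1 + |s.im| := by
    intro z hz
    have h4 := (hball z hz).2
    have h5 := abs_sub_abs_le_abs_sub s.im z.im
    have h6 := abs_sub_abs_le_abs_sub z.im s.im
    rw [abs_sub_comm] at h5
    constructor <;> linarith
  have hd : DifferentiableOn ℂ riemannZeta (Metric.closedBall s (1 / 8)) := by
    intro z hz
    apply (POLY.zeta_diff _).differentiableWithinAt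
    intro hh
    have := (him z hz).1
    rw [hh] at this
    simp at this
    linarith
  have h7 := Complex.norm_iteratedDeriv_le_of_forall_mem_sphere_norm_le (c := s) (R := 1 / 8)
    (C := C * (2 + |s.im|) ^ (17 / 8 : ℝ)) (f := riemannZeta) 2 (by norm_num)
    (hd.diffContOnCl_ball subset_rfl) (by
      intro z hz
      have hz' : z ∈ Metric.closedBall s (1 / 8) := Metric.sphere_subset_closedBall hz
      have h8 := hball z hz'
      have h9 := him z hz'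
      rw [abs_le, abs_le] at h8
      refine (h z (by linarith [h8.1.1]) (by linarith [h8.1.2]) h9.1).trans ?_
      apply mul_le_mul_of_nonneg_left _ hC.le
      apply Real.rpow_le_rpow (by linarith [abs_nonneg z.im]) (by linarith [h9.2]) (by norm_num))
  have e : iteratedDeriv 2 riemannZeta s = deriv (deriv riemannZeta) s := by
    rw [show (2 : ℕ) = 1 + 1 from rfl, iteratedDeriv_succ, iteratedDeriv_one]
  rw [e] at h7
  refine h7.trans (le_of_eq ?_)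
  norm_num [Nat.factorial]
  ring

lemma poly_part (A B : ℝ) : ∀ᶠ T : ℝ in atTop, ∀ s : ℂ, -(1 / 2) ≤ s.re → s.re ≤ 3 / 2 →
    2 ≤ s.im → s.im ≤ 5 * T → ‖deriv riemannZeta s‖ ≤ T ^ 3 ∧ ‖F0 A B s‖ ≤ T ^ 3 := by
  obtain ⟨C1, hC1, h1⟩ := POLY.zeta_bound
  obtain ⟨C2, hC2, h2⟩ := POLY.deriv_bound
  obtain ⟨C3, hC3, h3⟩ := deriv2_bound
  filter_upwards [POLY.ev_pow C2, POLY.ev_pow (C3 + |A| * C2 + |B| * C1), eventually_ge_atTop 2]
    with T h4 h5 hT s hs1 hs2 hs3 hs4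
  have e : T ^ (3 : ℝ) = T ^ 3 := by norm_cast
  rw [e] at h4 h5
  have habs : |s.im| = s.im := abs_of_pos (by linarith)
  have hp : (2 + |s.im|) ^ (17 / 8 : ℝ) ≤ (6 * T) ^ (17 / 8 : ℝ) :=
    Real.rpow_le_rpow (by positivity) (by rw [habs]; linarith) (by norm_num)
  have hp1 : (1 + |s.im|) ^ (17 / 8 : ℝ) ≤ (6 * T) ^ (17 / 8 : ℝ) :=
    Real.rpow_le_rpow (by positivity) (by rw [habs]; linarith) (by norm_num)
  have b1 : ‖riemannZeta s‖ ≤ C1 * (6 * T) ^ (17 / 8 : ℝ) :=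
    (h1 s (by linarith) (by linarith) (by rw [habs]; linarith)).trans (by gcongr)
  have b2 : ‖deriv riemannZeta s‖ ≤ C2 * (6 * T) ^ (17 / 8 : ℝ) :=
    (h2 s hs1 hs2 (by rw [habs]; linarith)).trans (by gcongr)
  have b3 : ‖deriv (deriv riemannZeta) s‖ ≤ C3 * (6 * T) ^ (17 / 8 : ℝ) :=
    (h3 s hs1 hs2 (by rw [habs]; linarith)).trans (by gcongr)
  refine ⟨b2.trans h4, le_trans ?_ h5⟩
  unfold F0
  have n1 : ‖deriv (deriv riemannZeta) s / 2‖ ≤ C3 * (6 * T) ^ (17 / 8 : ℝ) := by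
    rw [norm_div, Complex.norm_ofNat]
    have := norm_nonneg (deriv (deriv riemannZeta) s)
    linarith
  have n2 : ‖(A : ℂ) * deriv riemannZeta s‖ ≤ |A| * (C2 * (6 * T) ^ (17 / 8 : ℝ)) := by
    rw [norm_mul, Complex.norm_real, Real.norm_eq_abs]
    gcongr
  have n3 : ‖(B : ℂ) * riemannZeta s‖ ≤ |B| * (C1 * (6 * T) ^ (17 / 8 : ℝ)) := by
    rw [norm_mul, Complex.norm_real, Real.norm_eq_abs]
    gcongr
  have n4 := norm_add_le (deriv (deriv riemannZeta) s / 2 - A * deriv riemannZeta s)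
    (B * riemannZeta s)
  have n5 := norm_sub_le (deriv (deriv riemannZeta) s / 2) ((A : ℂ) * deriv riemannZeta s)
  calc _ ≤ C3 * (6 * T) ^ (17 / 8 : ℝ) + |A| * (C2 * (6 * T) ^ (17 / 8 : ℝ)) +
        |B| * (C1 * (6 * T) ^ (17 / 8 : ℝ)) := by linarith
    _ = _ := by ring

/-! ### Dirichlet series on a line -/

lemma norm_LSeries_le {a : ℕ → ℂ} {c : ℝ} (hs : Summable fun n : ℕ => ‖a n‖ * (n : ℝ) ^ (-c))
    (s : ℂ) (hc : s.re = c) : ‖LSeries a s‖ ≤ ∑' n : ℕ, ‖a n‖ * (n : ℝ) ^ (-c) := by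
  unfold LSeries
  refine tsum_of_norm_bounded hs.hasSum fun n => ?_
  rw [LSeries.norm_term_eq]
  split_ifs with h
  · positivity
  · rw [Real.rpow_neg (by positivity), hc, div_eq_mul_inv]

end Pool.Agent.Lib.MP_6bc78b_nt.GP.H47
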